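import Pool.Agent.H86.DixA

set_option autoImplicit false

namespace Pool.Agent.Results.MP_9105af_an.NotNormal

open Filter Topology Finset Pool.Agent.H86.Dix

section

variable {E : Type} [NormedAddCommGroup E] [InnerProductSpace ℂ E] [CompleteSpace E]

/-- the logarithmic averages `(1 / log (1 + N)) * (μ_1 + ... + μ_N)`, `N = n + 1 ≥ 1` -/
noncomputable def avg (T : E →L[ℂ] E) (n : ℕ) : ℝ :=
  (∑ k ∈ range (n + 1), sv T k) / Real.log (n + 2)

/-- the ideal `M_{1,∞}` -/
def M1 (T : E →L[ℂ] E) : Prop := IsCompactOperator T ∧ BddAbove (Set.range (avg T))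

/-- bounded real sequences -/
def Bdd (a : ℕ → ℝ) : Prop := ∃ C, ∀ n, |a n| ≤ C

/-- a generalised limit: a positive linear functional on bounded sequences extending `lim` -/
structure GenLim (ω : (ℕ → ℝ) → ℝ) : Prop where
  add : ∀ a b, Bdd a → Bdd b → ω (a + b) = ω a + ω b
  smul : ∀ (c : ℝ) a, Bdd a → ω (c • a) = c * ω a
  pos : ∀ a, Bdd a → (∀ n, 0 ≤ a n) → 0 ≤ ω a
  lim : ∀ a l, Tendsto a atTop (𝓝 l) → ω a = l

/-- a spectral triple `(A, E, D)`, with `R p = (1 + D^2)^(-p/2)` for `p ≥ 0` -/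
structure Triple (A : StarSubalgebra ℂ (E →L[ℂ] E)) (D : E →ₗ.[ℂ] E) (R : ℝ → E →L[ℂ] E) :
    Prop where
  gen : ∃ s : Set (E →L[ℂ] E), s.Countable ∧ A = StarAlgebra.adjoin ℂ s
  sa : IsSelfAdjoint D
  bdd : ∀ a ∈ A, ∃ C : E →L[ℂ] E, ∀ x y, (x, y) ∈ D.graph → (a x, a y + C x) ∈ D.graph
  eig : ∃ (b : HilbertBasis ℕ ℂ E) (d : ℕ → ℝ), ∀ j, (b j, (d j : ℂ) • b j) ∈ D.graph ∧
    ∀ p : ℝ, 0 ≤ p → R p (b j) = (((1 + d j ^ 2) ^ (-p / 2) : ℝ) : ℂ) • b j
  cpt : IsCompactOperator (R 1)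

/-- `ρ` is completely additive on orthogonal families of projections of `N` -/
def Normal (N : Set (E →L[ℂ] E)) (ρ : (E →L[ℂ] E) → ℂ) : Prop :=
  ∀ (ι : Type) (P : ι → E →L[ℂ] E) (S : E →L[ℂ] E), (∀ i, P i ∈ N ∧ IsStarProjection (P i)) →
    (∀ i j, i ≠ j → P i * P j = 0) → (∀ x, HasSum (fun i => P i x) (S x)) →
    HasSum (fun i => ρ (P i)) (ρ S)

/-- the bicommutant -/
def bic (A : StarSubalgebra ℂ (E →L[ℂ] E)) : Set (E →L[ℂ] E) := (A : Set (E →L[ℂ] E)).centralizer.centralizer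

/-- `N` contains no nonzero finite rank operator -/
def NoFin (N : Set (E →L[ℂ] E)) : Prop := ∀ S ∈ N, (S : E →ₗ[ℂ] E).rank < Cardinal.aleph0 → S = 0

/-- `n` is the least value such that `R p` is trace class for all `p > n` -/
def IsDim (R : ℝ → (E →L[ℂ] E)) (n : ℝ) : Prop := IsLeast {m : ℝ | 0 ≤ m ∧ ∀ p > m, Summable (sv (R p))} n

/-- `Tr` is given by the Dixmier formula on the positive part of `M_{1,∞}` -/
def Dix (ω : (ℕ → ℝ) → ℝ) (Tr : (E →L[ℂ] E) → ℂ) : Prop := ∀ T, 0 ≤ T → M1 T → Tr T = ω (avg T)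

end

theorem sqrt_pair (k t : ℕ) : (Nat.pair k t).sqrt = max k t := by
  rw [Nat.pair]
  split_ifs with h
  · rw [Nat.sqrt_add_eq _ (by omega), max_eq_right h.le]
  · rw [add_assoc, Nat.sqrt_add_eq _ (by omega), max_eq_left (not_lt.mp h)]

theorem xor_le (t s : ℕ) : t ^^^ s ≤ t + 2 ^ s := by
  have h1 : (t ^^^ s) / 2 ^ s = t / 2 ^ s := by
    rw [Nat.xor_div_two_pow, Nat.div_eq_of_lt Nat.lt_two_pow_self, Nat.xor_zero]
  have h2 := Nat.div_add_mod (t ^^^ s) (2 ^ s)
  have h3 := Nat.mod_lt (t ^^^ s) (Nat.two_pow_pos s)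
  have h4 := Nat.mul_div_le t (2 ^ s)
  rw [h1] at h2
  omega

/-- the translations in the second coordinate -/
def σ (s : ℕ) (j : ℕ) : ℕ := Nat.pair j.unpair.1 (j.unpair.2 ^^^ s)

theorem σ_inv (s : ℕ) : Function.Involutive (σ s) := fun j => by simp [σ]

theorem σ_le (s j : ℕ) : (σ s j).sqrt ≤ j.sqrt + 2 ^ s := by
  conv_rhs => rw [← Nat.pair_unpair j]
  rw [σ, sqrt_pair, sqrt_pair]
  have := xor_le j.unpair.2 s
  generalize 2 ^ s = c at this ⊢
  omega

/-- the weights -/
noncomputable def w (p : ℝ) (j : ℕ) : ℝ := (1 + (j.sqrt : ℝ) ^ 2) ^ (-p / 2)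

theorem w_pos (p : ℝ) (j : ℕ) : 0 < w p j := by
  rw [w]
  positivity

theorem w_anti {p : ℝ} (hp : 0 ≤ p) {i j : ℕ} (h : i.sqrt ≤ j.sqrt) : w p j ≤ w p i :=
  Real.rpow_le_rpow_of_nonpos (by positivity) (by gcongr) (by linarith)

theorem w_le_one {p : ℝ} (hp : 0 ≤ p) (j : ℕ) : w p j ≤ 1 := by
  simpa [w] using w_anti hp (i := 0) (j := j) (by simp)

theorem w_le {p : ℝ} (hp : 0 ≤ p) (j : ℕ) : w p j ≤ 2 ^ (p / 2) * ((j : ℝ) + 1) ^ (-p / 2) := by
  have h1 : (j : ℝ) + 1 ≤ ((j.sqrt : ℝ) + 1) ^ 2 := by exact_mod_cast Nat.lt_succ_sqrt' j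
  refine (Real.rpow_le_rpow_of_nonpos (x := 2⁻¹ * ((j : ℝ) + 1)) (by positivity)
    (by nlinarith [sq_nonneg ((j.sqrt : ℝ) - 1)]) (by linarith)).trans_eq ?_
  rw [Real.mul_rpow (by positivity) (by positivity), Real.inv_rpow zero_le_two, neg_div,
    Real.rpow_neg zero_le_two, inv_inv]

theorem w_two (j : ℕ) : w 2 j = (1 + (j.sqrt : ℝ) ^ 2)⁻¹ := by
  rw [w, ← Real.rpow_neg_one]
  norm_num

theorem w_lim {p : ℝ} (hp : 0 < p) : Tendsto (w p) atTop (𝓝 0) := by
  refine squeeze_zero (fun j => (w_pos p j).le) (w_le hp.le) ?_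
  simpa [neg_div] using ((tendsto_rpow_neg_atTop (half_pos hp)).comp
    (tendsto_atTop_add_const_right _ 1 tendsto_natCast_atTop_atTop)).const_mul (2 ^ (p / 2))

theorem log_pos (n : ℕ) : 0 < Real.log (n + 2) :=
  Real.log_pos (by linarith [Nat.cast_nonneg (α := ℝ) n])

theorem avg_nonneg (T : H →L[ℂ] H) (n : ℕ) : 0 ≤ avg T n :=
  div_nonneg (sum_nonneg fun k _ => sv_nonneg T k) (log_pos n).le

theorem avg_lim {T : H →L[ℂ] H} (h : Summable (sv T)) : Tendsto (avg T) atTop (𝓝 0) :=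
  (h.hasSum.tendsto_sum_nat.comp (tendsto_add_atTop_nat 1)).div_atTop (Real.tendsto_log_atTop.comp
    (tendsto_atTop_add_const_right _ 2 tendsto_natCast_atTop_atTop))

theorem result : ∃ (E : Type) (_ : NormedAddCommGroup E) (_ : InnerProductSpace ℂ E)
    (_ : CompleteSpace E) (A : StarSubalgebra ℂ (E →L[ℂ] E)) (D : E →ₗ.[ℂ] E)
    (R : ℝ → E →L[ℂ] E), Triple A D R ∧ IsDim R 2 ∧ M1 (R 2) ∧ NoFin (bic A) ∧
    ∀ ω Tr, GenLim ω → Dix ω Tr → ¬ Normal (bic A) fun S => Tr (S * R 2) := by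
  refine ⟨H, inferInstance, inferInstance, inferInstance, ?_⟩
  obtain ⟨D, d1, d2⟩ := exists_D fun j => j.sqrt
  choose R0 hR0 using fun p : ℝ => exists_dg (w := w (max p 0)) (c := 1) fun j => by
    rw [abs_of_pos (w_pos _ j)]
    exact w_le_one (le_max_right _ _) j
  have hR : ∀ p, 0 ≤ p → IsD (R0 p) (w p) := fun p hp => by simpa [hp] using hR0 p
  choose P hP using fun k : ℕ => exists_dg (w := fun j => if j.unpair.1 = k then 1 else 0) (c := 1)
    fun j => by split_ifs <;> simp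
  choose U u1 u2 using fun s => exists_pm (σ_inv s).toPerm
  simp only [Function.Involutive.coe_toPerm] at u1
  have u3 : ∀ s, star (U s) = U s := fun s =>
    ContinuousLinearMap.isSelfAdjoint_iff_isSymmetric.mpr fun x y => by
      simp only [lp.inner_eq_tsum, ContinuousLinearMap.coe_coe, u1]
      rw [← (σ_inv s).toPerm.tsum_eq]
      simp only [Function.Involutive.coe_toPerm, σ_inv s _]
  let G : Set (H →L[ℂ] H) := Set.range P ∪ Set.range U
  have hA : ∀ Z : Subalgebra ℂ (H →L[ℂ] H), (∀ k, P k ∈ Z) → (∀ s, U s ∈ Z) →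
      ∀ a ∈ StarAlgebra.adjoin ℂ G, a ∈ Z := fun Z h1 h2 a ha => by
    refine Algebra.adjoin_le (s := G ∪ star G) ?_ (StarAlgebra.adjoin_toSubalgebra ℂ G ▸ ha)
    rintro b ((⟨k, rfl⟩ | ⟨s, rfl⟩) | (⟨k, h⟩ | ⟨s, h⟩))
    · exact h1 k
    · exact h2 s
    · rw [← star_star b, ← h, (hP k).sa]
      exact h1 k
    · rw [← star_star b, ← h, u3]
      exact h2 s
  have s1 : ∀ p, 0 ≤ p → ∀ k, sv (R0 p) k ≤ w p k := fun p hp k =>
    (hR p hp).sv_le (range k) (by simp) (w_pos p k).le fun j hj => by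
      rw [abs_of_pos (w_pos _ j)]
      exact w_anti hp (Nat.sqrt_le_sqrt (by simpa using hj))
  have s2 : ∀ n, 1 ≤ avg (R0 2) n := fun n => by
    rw [avg, one_le_div (log_pos n)]
    have h1 := log_add_one_le_harmonic (n + 1)
    simp only [harmonic, Rat.cast_sum, Rat.cast_inv, Rat.cast_natCast] at h1
    refine (show _ = _ by push_cast; ring_nf).trans_le (h1.trans (sum_le_sum fun k _ => ?_))
    refine (hR 2 zero_le_two).le_sv (by positivity) fun j hj => ?_
    have h2 : (j.sqrt : ℝ) ^ 2 ≤ k := by exact_mod_cast (Nat.sqrt_le' j).trans hj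
    rw [abs_of_pos (w_pos _ j), w_two]
    push_cast
    exact inv_anti₀ (by positivity) (by linarith)
  have s3 : ∀ n, avg (R0 2) n ≤ 2 / Real.log 2 + 2 := fun n => by
    have h1 := harmonic_le_one_add_log (n + 1)
    simp only [harmonic, Rat.cast_sum, Rat.cast_inv, Rat.cast_natCast] at h1
    have h2 : ∑ k ∈ range (n + 1), sv (R0 2) k ≤ 2 * ∑ k ∈ range (n + 1), ((k + 1 : ℕ) : ℝ)⁻¹ := by
      rw [mul_sum]
      refine sum_le_sum fun k _ => (s1 2 zero_le_two k).trans ((w_le zero_le_two k).trans_eq ?_)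
      norm_num [Real.rpow_neg_one]
    have h3 : Real.log ((n + 1 : ℕ) : ℝ) ≤ Real.log (n + 2) :=
      Real.log_le_log (by positivity) (by push_cast; linarith)
    have h4 : Real.log 2 ≤ Real.log (n + 2) :=
      Real.log_le_log two_pos (by linarith [Nat.cast_nonneg (α := ℝ) n])
    have h5 := Real.log_pos one_lt_two
    have h6 : 2 ≤ 2 / Real.log 2 * Real.log (n + 2) := by
      rw [div_mul_eq_mul_div, le_div_iff₀ h5]
      linarith
    rw [avg, div_le_iff₀ (log_pos n)]
    linarith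
  have m2 : M1 (R0 2) := ⟨(hR 2 zero_le_two).cpt (w_lim two_pos), _, by
    rintro _ ⟨n, rfl⟩; exact s3 n⟩
  refine ⟨StarAlgebra.adjoin ℂ G, D, R0, ⟨⟨G, (Set.countable_range P).union (Set.countable_range U),
    rfl⟩, d1, ?_, ⟨⟨LinearIsometryEquiv.refl _ _⟩, fun j => j.sqrt, fun j => ?_⟩,
    (hR 1 zero_le_one).cpt (w_lim one_pos)⟩, ⟨⟨zero_le_two, fun p hp => ?_⟩, fun n hn => ?_⟩, m2,
    fun S hS h1 => ?_, fun ω Tr hω hT hN => ?_⟩
  · let Z : Subalgebra ℂ (H →L[ℂ] H) :=
      { carrier := {a | ∃ C : H →L[ℂ] H, ∀ x y, (x, y) ∈ D.graph → (a x, a y + C x) ∈ D.graph}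
        mul_mem' := by
          rintro a b ⟨C, hC⟩ ⟨C', hC'⟩
          exact ⟨a * C' + C * b, fun x y h => by simpa [add_assoc] using hC _ _ (hC' x y h)⟩
        add_mem' := by
          rintro a b ⟨C, hC⟩ ⟨C', hC'⟩
          exact ⟨C + C', fun x y h => by
            simpa [add_add_add_comm] using add_mem (hC x y h) (hC' x y h)⟩
        algebraMap_mem' := fun r => ⟨0, fun x y h => by
          simpa [Algebra.algebraMap_eq_smul_one] using D.graph.smul_mem r h⟩ }
    refine hA Z (fun k => ⟨0, fun x y h => (d2 _ _).mpr fun j => ?_⟩) fun s => ?_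
    · simp [hP k _ j, (d2 _ _).mp h j, mul_left_comm]
    · obtain ⟨C, hC⟩ := exists_dg (w := fun j => (j.sqrt : ℝ) - (σ s j).sqrt) (c := 2 ^ s)
        fun j => by
          have h1 : ((σ s j).sqrt : ℝ) ≤ j.sqrt + 2 ^ s := by exact_mod_cast σ_le s j
          have h2 : ((σ s (σ s j)).sqrt : ℝ) ≤ (σ s j).sqrt + 2 ^ s := by
            exact_mod_cast σ_le s (σ s j)
          rw [σ_inv s j] at h2
          exact abs_le.mpr ⟨by linarith, by linarith⟩
      refine ⟨C * U s, fun x y h => (d2 _ _).mpr fun j => ?_⟩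
      simp [hC _ j, u1, (d2 _ _).mp h (σ s j), sub_mul]
  · rw [show (⟨LinearIsometryEquiv.refl _ _⟩ : HilbertBasis ℕ ℂ H) j = e j from
      (HilbertBasis.repr_symm_single _ j).symm]
    refine ⟨(d2 _ _).mpr fun i => ?_, fun p hp => ext' fun i => ?_⟩
    · by_cases h : i = j <;> simp [e_apply, h]
    · rw [hR p hp, lp.coeFn_smul, Pi.smul_apply]
      by_cases h : i = j <;> simp [e_apply, h, w]
  · refine Summable.of_nonneg_of_le (sv_nonneg _) (fun k => (s1 p (by linarith) k).trans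
      (w_le (by linarith) k)) (Summable.mul_left _ ?_)
    simpa using (summable_nat_add_iff 1).mpr (Real.summable_nat_rpow.mpr (by linarith : -p / 2 < -1))
  · by_contra h
    exact (ge_of_tendsto' (avg_lim (hn.2 2 (not_le.mp h))) s2).not_gt one_pos
  · have h2 : ∀ s, U s * S = S * U s := fun s => hS _ fun a ha =>
      (hA (Subalgebra.centralizer ℂ {U s}) (fun k => by
        rintro _ rfl
        exact ContinuousLinearMap.ext fun x => ext' fun j => by simp [u1, hP k _ _, σ])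
      (fun t => by
        rintro _ rfl
        exact ContinuousLinearMap.ext fun x => ext' fun j => by
          simp [u1, σ, Nat.xor_assoc, Nat.xor_comm s t]) a ha _ rfl).symm
    refine ContinuousLinearMap.ext fun x => ?_
    obtain ⟨K, k1, k2⟩ := (fin_cpt h1).image_closedBall_subset_compact (𝕜₁ := ℂ) ‖x‖
    obtain ⟨z, -, φ, h3, h4⟩ := k1.tendsto_subseq (x := fun s => U s (S x)) fun s =>
      k2 ⟨U s x, by simp [u2], (congrArg (· x) (h2 s)).symm⟩
    have h5 : z = 0 := ext' fun j => tendsto_nhds_unique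
      (((lp.evalCLM ℂ (fun _ : ℕ => ℂ) 2 j).continuous.tendsto z).comp h4) (by
        have h6 := ((lp.memℓp (S x)).summable (by simp)).tendsto_cofinite_zero.comp
          (Function.Injective.tendsto_cofinite (f := fun s => σ (φ s) j) fun s t h =>
            h3.injective (by simpa [σ] using h))
        rw [Nat.cofinite_eq_atTop] at h6
        refine tendsto_iff_norm_sub_tendsto_zero.mpr ?_
        change Tendsto (fun s => ‖U (φ s) (S x) j - 0‖) _ _
        simpa [Function.comp_def, u1] using h6.sqrt)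
    have h6 := h4.norm
    simp only [Function.comp_def, u2, h5, norm_zero] at h6
    exact norm_eq_zero.mp (tendsto_nhds_unique tendsto_const_nhds h6)
  · have h1 := hN ℕ P 1 (fun k => ⟨Set.subset_centralizer_centralizer
      (StarAlgebra.subset_adjoin ℂ G (Or.inl ⟨k, rfl⟩)), ((hP k).mul (hP k)).eq (by
        simpa [← ite_and] using hP k), (hP k).sa⟩)
      (fun k l h => ContinuousLinearMap.ext fun x => ext' fun j => by
        by_cases h2 : j.unpair.1 = k <;> simp [hP k _ j, hP l _ j, h2, h]) fun x => by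
        have h2 := (Nat.pairEquiv.hasSum_iff.mpr (lp.hasSum_single (by simp) x))
        refine h2.prod_fiberwise fun k => ?_
        have h3 : ∀ j, P k (lp.single 2 j (x j)) =
            if j.unpair.1 = k then lp.single 2 j (x j) else 0 := fun j => ext' fun i => by
          rw [hP k]
          by_cases h4 : i = j <;> by_cases h5 : j.unpair.1 = k <;> simp [h4, h5]
        have h4 := (Function.Injective.hasSum_iff (g := Nat.pair k) (fun s t h => by simpa using h)
          fun j hj => (h3 j).trans (if_neg fun h => hj ⟨_, h ▸ Nat.pair_unpair j⟩)).mpr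
          ((P k).hasSum (lp.hasSum_single (by simp) x))
        simpa [Function.comp_def, h3] using h4
    have h2 : ∀ k, Tr (P k * R0 2) = 0 := fun k => by
      have h3 := (hP k).mul (hR 2 zero_le_two)
      have h4 : Summable (sv (P k * R0 2)) := by
        refine Summable.of_nonneg_of_le (sv_nonneg _) (fun m => h3.sv_le ((range m).image (Nat.pair k))
          (card_image_le.trans (by simp)) (w_pos 2 (m * m)).le fun j hj => ?_) ?_
        · split_ifs with h5
          · rw [one_mul, abs_of_pos (w_pos _ j)]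
            refine w_anti zero_le_two ?_
            rw [← Nat.pair_unpair j, sqrt_pair, Nat.sqrt_eq]
            refine le_max_of_le_right (not_lt.mp fun h6 => hj ?_)
            exact mem_image.mpr ⟨_, mem_range.mpr h6, h5 ▸ Nat.pair_unpair j⟩
          · simpa using (w_pos 2 (m * m)).le
        · simp only [w_two, Nat.sqrt_eq]
          refine (summable_nat_add_iff 1).mp (Summable.of_nonneg_of_le (fun _ => by positivity)
            (fun m => ?_) ((summable_nat_add_iff 1).mpr (Real.summable_nat_pow_inv.mpr one_lt_two)))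
          exact inv_anti₀ (by positivity) (by linarith)
      rw [hT _ (h3.pos (fun j => by split_ifs <;> simp [(w_pos 2 j).le]) fun j => by
        split_ifs <;> simp [w_le_one zero_le_two j]) ⟨h3.cpt (squeeze_zero
          (fun j => by split_ifs <;> simp [(w_pos 2 j).le])
          (fun j => by split_ifs <;> simp [(w_pos 2 j).le]) (w_lim two_pos)),
          (avg_lim h4).bddAbove_range⟩, hω.lim _ _ (avg_lim h4), Complex.ofReal_zero]
    simp only [h2, one_mul, hT _ ((hR 2 zero_le_two).pos (fun j => (w_pos 2 j).le)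
      (w_le_one zero_le_two)) m2] at h1
    have h3 := hasSum_zero.unique h1
    have h4 : Bdd (avg (R0 2) - 1) := ⟨2 / Real.log 2 + 2, fun n => by
      have := s2 n
      have := s3 n
      simp only [Pi.sub_apply, Pi.one_apply]
      exact abs_le.mpr ⟨by linarith, by linarith⟩⟩
    have h5 := hω.add _ 1 h4 ⟨1, by simp⟩
    have h6 := hω.pos _ h4 fun n => sub_nonneg.mpr (s2 n)
    rw [sub_add_cancel, hω.lim 1 1 tendsto_const_nhds, Complex.ofReal_eq_zero.mp h3.symm] at h5
    linarith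

end Pool.Agent.Results.MP_9105af_an.NotNormal
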